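import Pool.Agent.helper91.SI.Spec

/-! # CA0: the i-graph of a cycle with 3k vertices has no edge. -/

set_option autoImplicit false

namespace Pool.Agent.helper91.SI

open Pool.Agent.helper20.IG (IsIndepDom IsISet iGraph)

theorem CA0_adj (hCYA : CYA_stmt) (n : ℕ) (hn : 3 ≤ n) (u v : Fin n) :
    (SimpleGraph.cycleGraph n).Adj u v ↔
      (u.val + 1 = v.val ∨ v.val + 1 = u.val ∨ (u.val = 0 ∧ v.val + 1 = n) ∨
        (v.val = 0 ∧ u.val + 1 = n)) := by
  rw [hCYA n hn u v]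
  have hu := u.isLt
  have hv := v.isLt
  have key : ∀ a : ℕ, a < n → (a + 1) % n = if a + 1 = n then 0 else a + 1 := by
    intro a ha
    split_ifs with h
    · rw [h]; exact Nat.mod_self n
    · exact Nat.mod_eq_of_lt (by omega)
  rw [key _ hu, key _ hv]
  split_ifs with h1 h2 h2 <;> omega

theorem CA0_D (hCYA : CYA_stmt) (n : ℕ) (hn : 6 ≤ n) (h3 : n % 3 = 0) :
    IsIndepDom (SimpleGraph.cycleGraph n)
      (Finset.univ.filter fun x : Fin n => x.val % 3 = 0) ∧
    3 * (Finset.univ.filter fun x : Fin n => x.val % 3 = 0).card ≤ n := by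
  refine ⟨⟨?_, ?_⟩, ?_⟩
  · intro u hu v hv h
    rw [CA0_adj hCYA n (by omega)] at h
    simp only [Finset.mem_filter, Finset.mem_univ, true_and] at hu hv
    omega
  · intro v hv
    simp only [Finset.mem_filter, Finset.mem_univ, true_and] at hv
    have h1 := v.isLt
    by_cases h0 : v.val % 3 = 1
    · refine ⟨⟨v.val - 1, by omega⟩, ?_, ?_⟩
      · simp only [Finset.mem_filter, Finset.mem_univ, true_and]
        omega
      · rw [CA0_adj hCYA n (by omega)]
        simp only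
        omega
    · by_cases h4 : v.val + 1 = n
      · refine ⟨⟨0, by omega⟩, ?_, ?_⟩
        · simp
        · rw [CA0_adj hCYA n (by omega)]
          exact Or.inr (Or.inr (Or.inl ⟨rfl, h4⟩))
      · refine ⟨⟨v.val + 1, by omega⟩, ?_, ?_⟩
        · simp only [Finset.mem_filter, Finset.mem_univ, true_and]
          omega
        · rw [CA0_adj hCYA n (by omega)]
          exact Or.inr (Or.inl rfl)
  · have h := Finset.card_le_card_of_injOn (s := Finset.univ.filter fun x : Fin n => x.val % 3 = 0)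
      (t := Finset.range (n / 3)) (fun x : Fin n => x.val / 3) (by
        intro x hx
        have := x.isLt
        simp only [Finset.coe_filter, Finset.mem_univ, true_and, Set.mem_ofPred_eq] at hx
        simp only [Finset.coe_range, Set.mem_Iio]
        omega) (by
        intro x hx y hy hxy
        simp only [Finset.coe_filter, Finset.mem_univ, true_and, Set.mem_ofPred_eq] at hx hy
        simp only at hxy
        apply Fin.ext
        omega)
    rw [Finset.card_range] at h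
    omega

/-- the three members of the closed neighbourhood -/
def CA0_f (n : ℕ) (hn : 6 ≤ n) (p : Fin n × Fin 3) : Fin n :=
  if p.2.val = 0 then p.1
  else if p.2.val = 1 then (if h : p.1.val + 1 = n then ⟨0, by omega⟩ else ⟨p.1.val + 1, by omega⟩)
  else (if h : p.1.val = 0 then ⟨n - 1, by omega⟩ else ⟨p.1.val - 1, by omega⟩)

theorem CA0_f0 (n : ℕ) (hn : 6 ≤ n) (s : Fin n) : (CA0_f n hn (s, 0)) = s := by
  simp [CA0_f]

theorem CA0_f1 (n : ℕ) (hn : 6 ≤ n) (s y : Fin n)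
    (h : s.val + 1 = y.val ∨ (y.val = 0 ∧ s.val + 1 = n)) : (CA0_f n hn (s, 1)) = y := by
  have hs := s.isLt
  have hy := y.isLt
  apply Fin.ext
  simp only [CA0_f]
  split_ifs with h1 h2 h3 h4 <;> simp_all <;> omega

theorem CA0_f2 (n : ℕ) (hn : 6 ≤ n) (s y : Fin n)
    (h : y.val + 1 = s.val ∨ (s.val = 0 ∧ y.val + 1 = n)) : (CA0_f n hn (s, 2)) = y := by
  have hs := s.isLt
  have hy := y.isLt
  apply Fin.ext
  simp only [CA0_f]
  split_ifs with h1 h2 h3 h4 <;> simp_all <;> omega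

theorem CA0_perfect (hCYA : CYA_stmt) (n : ℕ) (hn : 6 ≤ n) (h3 : n % 3 = 0) (S : Finset (Fin n))
    (hS : IsISet (SimpleGraph.cycleGraph n) S) (s t y : Fin n) (hs : s ∈ S) (ht : t ∈ S)
    (hsy : s = y ∨ (SimpleGraph.cycleGraph n).Adj s y)
    (hty : t = y ∨ (SimpleGraph.cycleGraph n).Adj t y) : s = t := by
  obtain ⟨hD, hDc⟩ := CA0_D hCYA n hn h3
  have hSc : 3 * S.card ≤ n := le_trans (Nat.mul_le_mul_left 3 (hS.2 _ hD)) hDc
  have hrep : ∀ a b : Fin n, (a = b ∨ (SimpleGraph.cycleGraph n).Adj a b) →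
      ∃ i : Fin 3, CA0_f n hn (a, i) = b := by
    intro a b h
    rw [CA0_adj hCYA n (by omega)] at h
    rcases h with h | h | h | h | h
    · exact ⟨0, by rw [CA0_f0]; exact h⟩
    · exact ⟨1, CA0_f1 n hn a b (Or.inl h)⟩
    · exact ⟨2, CA0_f2 n hn a b (Or.inl h)⟩
    · exact ⟨2, CA0_f2 n hn a b (Or.inr h)⟩
    · exact ⟨1, CA0_f1 n hn a b (Or.inr h)⟩
  have hinj : Set.InjOn (CA0_f n hn) ((S ×ˢ (Finset.univ : Finset (Fin 3)) :
      Finset (Fin n × Fin 3)) : Set (Fin n × Fin 3)) := by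
    apply Finset.injOn_of_surjOn_of_card_le (t := Finset.univ)
    · intro x _
      simp
    · intro z _
      by_cases hz : z ∈ S
      · exact ⟨(z, 0), by simp [hz], CA0_f0 n hn z⟩
      · obtain ⟨w, hw, hwz⟩ := hS.1.2 z hz
        obtain ⟨i, hi⟩ := hrep w z (Or.inr hwz)
        exact ⟨(w, i), by simp [hw], hi⟩
    · rw [Finset.card_product, Finset.card_univ, Finset.card_univ, Fintype.card_fin,
        Fintype.card_fin]
      omega
  obtain ⟨i, hi⟩ := hrep s y hsy
  obtain ⟨j, hj⟩ := hrep t y hty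
  have := hinj (x₁ := (s, i)) (x₂ := (t, j)) (by simp [hs]) (by simp [ht]) (by rw [hi, hj])
  exact congrArg Prod.fst this

theorem CA0 (hCYA : CYA_stmt) : CA0_stmt := by
  intro n hn h3
  constructor
  intro e
  have h01 : (SimpleGraph.cycleGraph n).Adj (⟨0, by omega⟩ : Fin n) ⟨1, by omega⟩ := by
    rw [CA0_adj hCYA n (by omega)]
    simp
  have hXY : (iGraph (SimpleGraph.cycleGraph n)).Adj (e.symm ⟨0, by omega⟩)
      (e.symm ⟨1, by omega⟩) := e.symm.map_rel_iff.mpr h01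
  obtain ⟨_, u, hu, v, hv, huv, hY⟩ := hXY
  set X := e.symm ⟨0, by omega⟩ with hX
  set Y := e.symm ⟨1, by omega⟩ with hYd
  have huv' := (CA0_adj hCYA n (by omega) u v).mp huv
  -- the other neighbour of u
  have hul := u.isLt
  have hvl := v.isLt
  obtain ⟨y, hy1, hy2, hy3⟩ : ∃ y : Fin n, (SimpleGraph.cycleGraph n).Adj u y ∧ v ≠ y ∧
      ¬ (SimpleGraph.cycleGraph n).Adj v y := by
    have hcase : ∀ y : Fin n, ((u.val + 1 = v.val ∨ (v.val = 0 ∧ u.val + 1 = n)) ∧
        (y.val + 1 = u.val ∨ (u.val = 0 ∧ y.val + 1 = n)) ∨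
        (v.val + 1 = u.val ∨ (u.val = 0 ∧ v.val + 1 = n)) ∧
        (u.val + 1 = y.val ∨ (y.val = 0 ∧ u.val + 1 = n))) →
        ((SimpleGraph.cycleGraph n).Adj u y ∧ v ≠ y ∧ ¬ (SimpleGraph.cycleGraph n).Adj v y) := by
      intro y h
      have hyl := y.isLt
      rw [CA0_adj hCYA n (by omega), CA0_adj hCYA n (by omega)]
      refine ⟨by omega, ?_, by omega⟩
      intro hvy
      have := congrArg Fin.val hvy
      omega
    by_cases hc : u.val + 1 = v.val ∨ (v.val = 0 ∧ u.val + 1 = n)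
    · by_cases hu0 : u.val = 0
      · exact ⟨⟨n - 1, by omega⟩, hcase _ (Or.inl ⟨hc, by simp only; omega⟩)⟩
      · exact ⟨⟨u.val - 1, by omega⟩, hcase _ (Or.inl ⟨hc, by simp only; omega⟩)⟩
    · by_cases hu0 : u.val + 1 = n
      · exact ⟨⟨0, by omega⟩, hcase _ (Or.inr ⟨by omega, Or.inr ⟨rfl, hu0⟩⟩)⟩
      · exact ⟨⟨u.val + 1, by omega⟩, hcase _ (Or.inr ⟨by omega, Or.inl rfl⟩)⟩
  have hdom : ∃ w ∈ Y.1, w = y ∨ (SimpleGraph.cycleGraph n).Adj w y := by
    by_cases hyY : y ∈ Y.1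
    · exact ⟨y, hyY, Or.inl rfl⟩
    · obtain ⟨w, hw, hwy⟩ := Y.2.1.2 y hyY
      exact ⟨w, hw, Or.inr hwy⟩
  obtain ⟨w, hw, hwy⟩ := hdom
  rw [hY, Finset.mem_insert, Finset.mem_erase] at hw
  rcases hw with hw | ⟨hwu, hwX⟩
  · subst hw
    rcases hwy with h | h
    · exact hy2 h
    · exact hy3 h
  · exact hwu (CA0_perfect hCYA n hn h3 X.1 X.2 w u y hwX hu hwy (Or.inr hy1))

end Pool.Agent.helper91.SI
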