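import Pool.Agent.helper91.SI.Spec5

/-! # CLS: connected i-sets agree outside the component of the slides. -/

set_option autoImplicit false

namespace Pool.Agent.helper91.SI

open Pool.Agent.helper20.IG (IsIndepDom IsISet iGraph)

theorem CLS (hIAD : IAD_stmt) (hONE : ONE_stmt) : CLS_stmt := by
  intro V _ G K X s v hT h4 hK hS hs Y Y' hR
  have step : ∀ Y Z : {S : Finset V // IsISet G S}, (iGraph G).Adj Y Z →
      ∀ z, z ∉ K → (z ∈ Y.1 ↔ z ∈ Z.1) := by
    intro Y Z hYZ z hz
    obtain ⟨t, w, hsl, hZ⟩ := (hIAD V G Y Z).mp hYZ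
    have ht : t ∈ K := hONE V G K X Y.1 s v t w hT h4 hK hS hsl hs
    have hw : w ∈ K := (hK t w hsl.2.2.2.1).mp ht
    have hzt : z ≠ t := fun h => hz (h ▸ ht)
    have hzw : z ≠ w := fun h => hz (h ▸ hw)
    rw [hZ, Finset.mem_insert, Finset.mem_erase]
    constructor
    · intro h
      exact Or.inr ⟨hzt, h⟩
    · rintro (h | ⟨_, h⟩)
      · exact absurd h hzw
      · exact h
  obtain ⟨p⟩ := hR
  induction p with
  | nil =>
    intro z _
    exact Iff.rfl
  | cons h _ ih =>
    intro z hz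
    exact (step _ _ h z hz).trans (ih z hz)

end Pool.Agent.helper91.SI
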