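import Pool.Agent.helper91.SI.Spec5

/-! # CNA: the component with the slides is isomorphic to its i-graph. -/

set_option autoImplicit false

namespace Pool.Agent.helper91.SI

open Pool.Agent.helper20.IG (IsIndepDom IsISet iGraph)

theorem CNA_noTri {A B : Type} (G1 : SimpleGraph A) (G2 : SimpleGraph B) (f : A → B)
    (hadj : ∀ a b, G1.Adj a b → G2.Adj (f a) (f b)) (h : NoTri G2) : NoTri G1 :=
  fun a b c h1 h2 h3 => h (f a) (f b) (f c) (hadj _ _ h1) (hadj _ _ h2) (hadj _ _ h3)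

theorem CNA_noC4 {A B : Type} (G1 : SimpleGraph A) (G2 : SimpleGraph B) (f : A → B)
    (hf : Function.Injective f) (hadj : ∀ a b, G1.Adj a b → G2.Adj (f a) (f b)) (h : NoC4 G2) :
    NoC4 G1 :=
  fun a b c d h1 h2 h3 h4 h5 h6 => h (f a) (f b) (f c) (f d) (hadj _ _ h1) (hadj _ _ h2)
    (hadj _ _ h3) (hadj _ _ h4) (fun h7 => h5 (hf h7)) (fun h7 => h6 (hf h7))

theorem CNA_noC6 {A B : Type} (G1 : SimpleGraph A) (G2 : SimpleGraph B) (f : A → B)
    (hf : Function.Injective f) (hadj : ∀ a b, G1.Adj a b → G2.Adj (f a) (f b)) (h : NoC6 G2) :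
    NoC6 G1 := by
  intro a b c d x y hn h1 h2 h3 h4 h5 h6
  have hn2 : ([a, b, c, d, x, y].map f).Nodup := hn.map hf
  exact h (f a) (f b) (f c) (f d) (f x) (f y) hn2 (hadj _ _ h1) (hadj _ _ h2)
    (hadj _ _ h3) (hadj _ _ h4) (hadj _ _ h5) (hadj _ _ h6)

theorem CNA_three {A B : Type} (G1 : SimpleGraph A) (G2 : SimpleGraph B) (f : A → B)
    (hf : Function.Injective f) (hadj : ∀ a b, G1.Adj a b → G2.Adj (f a) (f b)) (h : ¬ Three G2) :
    ¬ Three G1 := by
  rintro ⟨x, a, b, c, h1, h2, h3, h4, h5, h6⟩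
  exact h ⟨f x, f a, f b, f c, hadj _ _ h1, hadj _ _ h2, hadj _ _ h3, fun h7 => h4 (hf h7),
    fun h7 => h5 (hf h7), fun h7 => h6 (hf h7)⟩

theorem CNA_conn {V : Type} (G : SimpleGraph V) (s : V) :
    (G.induce {z | G.Reachable s z}).Connected := by
  have key : ∀ (u w : V) (p : G.Walk u w) (hu : G.Reachable s u) (hw : G.Reachable s w),
      (G.induce {z | G.Reachable s z}).Reachable ⟨u, hu⟩ ⟨w, hw⟩ := by
    intro u w p
    induction p with
    | nil =>
      intro _ _
      exact SimpleGraph.Reachable.refl _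
    | cons h _ ih =>
      intro hu hw
      have hu' := hu.trans h.reachable
      exact (SimpleGraph.Adj.reachable (G := G.induce {z | G.Reachable s z})
        (u := ⟨_, hu⟩) (v := ⟨_, hu'⟩) h).trans (ih hu' hw)
  rw [SimpleGraph.connected_iff_exists_forall_reachable]
  refine ⟨⟨s, SimpleGraph.Reachable.refl s⟩, ?_⟩
  rintro ⟨w, hw⟩
  obtain ⟨p⟩ := (show G.Reachable s w from hw)
  exact key s w p _ _

theorem CNA (hIAD : IAD_stmt) (hEMB : EMB_stmt) (hCLS : CLS_stmt) (hSZN : SZN_stmt) :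
    CNA_stmt := by
  intro V _ _ G hT h4 h6 h3 e X s v hsl
  have hClo : Clo G {z | G.Reachable s z} := by
    intro u w huw
    constructor
    · intro h
      exact SimpleGraph.Reachable.trans h huw.reachable
    · intro h
      exact SimpleGraph.Reachable.trans h huw.symm.reachable
  have hconn := CNA_conn G s
  have hsK : s ∈ {z | G.Reachable s z} := SimpleGraph.Reachable.refl s
  have hvK : v ∈ {z | G.Reachable s z} := hsl.2.2.2.1.reachable
  have hKr : ∀ z, z ∈ {z | G.Reachable s z} → G.Reachable s z := fun z h => h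
  generalize {z | G.Reachable s z} = K at hClo hconn hsK hvK hKr ⊢
  have : Fintype K := Fintype.ofFinite K
  -- the edge
  have hX' : IsISet G (insert v (X.erase s)) := hsl.2.2.2.2
  have hXY : (iGraph G).Adj ⟨X, hsl.1⟩ ⟨insert v (X.erase s), hX'⟩ :=
    (hIAD V G _ _).mpr ⟨s, v, hsl, rfl⟩
  obtain ⟨E⟩ := hEMB V G K ⟨X, hsl.1⟩ hClo
  have hXD : ∀ z, z ∉ K → (z ∈ X ↔ z ∈ X) := fun _ _ => Iff.rfl
  have hX'D : ∀ z, z ∉ K → (z ∈ insert v (X.erase s) ↔ z ∈ X) := by
    intro z hz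
    have hzs : z ≠ s := fun h => hz (h ▸ hsK)
    have hzv : z ≠ v := fun h => hz (h ▸ hvK)
    rw [Finset.mem_insert, Finset.mem_erase]
    constructor
    · rintro (h | ⟨_, h⟩)
      · exact absurd h hzv
      · exact h
    · intro h
      exact Or.inr ⟨hzs, h⟩
  have hedge : ∃ Y Z, (iGraph (G.induce K)).Adj Y Z := by
    refine ⟨E.symm ⟨⟨X, hsl.1⟩, hXD⟩, E.symm ⟨⟨insert v (X.erase s), hX'⟩, hX'D⟩, ?_⟩
    exact E.symm.map_rel_iff.mpr hXY
  let f : {S // IsISet (G.induce K) S} → V := fun Y => e (E Y).1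
  have hf : Function.Injective f := by
    intro Y Z h
    exact E.injective (Subtype.ext (e.injective h))
  have hfadj : ∀ Y Z, (iGraph (G.induce K)).Adj Y Z → G.Adj (f Y) (f Z) := by
    intro Y Z h
    have h1 : ((iGraph G).induce _).Adj (E Y) (E Z) := E.map_rel_iff.mpr h
    exact e.map_rel_iff.mpr h1
  have hsub : ∀ a b : K, (G.induce K).Adj a b → G.Adj a.1 b.1 := fun _ _ h => h
  have hcard : Nat.card {S // IsISet (G.induce K) S} ≤ Nat.card K :=
    hSZN K (G.induce K) hconn (CNA_noTri _ G Subtype.val hsub hT)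
      (CNA_noC4 _ G Subtype.val Subtype.val_injective hsub h4)
      (CNA_noC6 _ G Subtype.val Subtype.val_injective hsub h6)
      (CNA_three _ G Subtype.val Subtype.val_injective hsub h3)
      (CNA_noC4 _ G f hf hfadj h4) (CNA_three _ G f hf hfadj h3) hedge
  -- the class of Y0
  have hiC4 : NoC4 (iGraph G) := CNA_noC4 _ G e e.injective (fun _ _ h => e.map_rel_iff.mpr h) h4
  let Y0 : {S : Finset V // IsISet G S} := e.symm s
  obtain ⟨E0⟩ := hEMB V G K Y0 hClo
  have hCD : {Y : {S : Finset V // IsISet G S} | e Y ∈ K} =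
      {Y | ∀ z, z ∉ K → (z ∈ Y.1 ↔ z ∈ Y0.1)} := by
    apply Set.eq_of_subset_of_ncard_le
    · intro Y hY z hz
      have h1 : (iGraph G).Reachable Y0 Y := by
        have h2 := (hKr _ hY).map e.symm.toHom
        have h3 : e.symm.toHom (e Y) = Y := e.symm_apply_apply Y
        rw [h3] at h2
        exact h2
      exact (hCLS V G K X s v hT hiC4 hClo hsl hsK Y0 Y h1 z hz).symm
    · have h1 : Nat.card {Y : {S : Finset V // IsISet G S} // e Y ∈ K} = Nat.card K :=
        Nat.card_congr (e.toEquiv.subtypeEquiv (fun _ => Iff.rfl))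
      have h2 : Nat.card {S // IsISet (G.induce K) S} =
          Nat.card {Y : {S : Finset V // IsISet G S} | ∀ z, z ∉ K → (z ∈ Y.1 ↔ z ∈ Y0.1)} :=
        Nat.card_congr E0.toEquiv
      rw [← Nat.card_coe_set_eq, ← Nat.card_coe_set_eq, ← h2]
      exact hcard.trans h1.symm.le
    · exact Set.toFinite _
  rw [← hCD] at E0
  refine ⟨E0.trans ⟨e.toEquiv.subtypeEquiv (fun _ => Iff.rfl), ?_⟩⟩
  intro a b
  exact e.map_rel_iff

end Pool.Agent.helper91.SI
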