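import Pool.Agent.helper91.SI.Spec

/-! # PAB: structure of the i-sets of a path with 3k or 3k-1 vertices. -/

set_option autoImplicit false

namespace Pool.Agent.helper91.SI

open Pool.Agent.helper20.IG (IsIndepDom IsISet iGraph)

theorem PAB_D (n k : ℕ) (hn : n = 3 * k ∨ n + 1 = 3 * k) :
    IsIndepDom (SimpleGraph.pathGraph n)
      (Finset.univ.filter fun x : Fin n => x.val % 3 = 1) ∧
    (Finset.univ.filter fun x : Fin n => x.val % 3 = 1).card ≤ k := by
  refine ⟨⟨?_, ?_⟩, ?_⟩
  · intro u hu v hv h
    rw [SimpleGraph.pathGraph_adj] at h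
    simp only [Finset.mem_filter, Finset.mem_univ, true_and] at hu hv
    omega
  · intro v hv
    simp only [Finset.mem_filter, Finset.mem_univ, true_and] at hv
    have h1 := v.isLt
    by_cases h0 : v.val % 3 = 0
    · refine ⟨⟨v.val + 1, by omega⟩, ?_, ?_⟩
      · simp only [Finset.mem_filter, Finset.mem_univ, true_and]
        omega
      · rw [SimpleGraph.pathGraph_adj]
        simp
    · refine ⟨⟨v.val - 1, by omega⟩, ?_, ?_⟩
      · simp only [Finset.mem_filter, Finset.mem_univ, true_and]
        omega
      · rw [SimpleGraph.pathGraph_adj]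
        simp only
        omega
  · have h := Finset.card_le_card_of_injOn (s := Finset.univ.filter fun x : Fin n => x.val % 3 = 1)
      (t := Finset.range k) (fun x : Fin n => x.val / 3) (by
        intro x hx
        have := x.isLt
        simp only [Finset.coe_filter, Finset.mem_univ, true_and, Set.mem_ofPred_eq] at hx
        simp only [Finset.coe_range, Set.mem_Iio]
        omega) (by
        intro x hx y hy hxy
        simp only [Finset.coe_filter, Finset.mem_univ, true_and, Set.mem_ofPred_eq] at hx hy
        simp only at hxy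
        apply Fin.ext
        omega)
    simpa using h

theorem PAB : PAB_stmt := by
  intro n k hn hk hn2 S hS
  obtain ⟨hD, hDc⟩ := PAB_D n k hn
  have hSc : S.card ≤ k := le_trans (hS.2 _ hD) hDc
  obtain ⟨⟨hind, hdom⟩, _⟩ := hS
  have hdom' : ∀ v : Fin n, ∃ u ∈ S, u.val = v.val ∨ u.val + 1 = v.val ∨ v.val + 1 = u.val := by
    intro v
    by_cases hv : v ∈ S
    · exact ⟨v, hv, Or.inl rfl⟩
    · obtain ⟨u, hu, huv⟩ := hdom v hv
      rw [SimpleGraph.pathGraph_adj] at huv
      exact ⟨u, hu, Or.inr huv⟩
  have hblk : ∀ j < k, ∃ x ∈ S, x.val / 3 = j := by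
    intro j hj
    obtain ⟨u, hu, h⟩ := hdom' ⟨3 * j + 1, by omega⟩
    refine ⟨u, hu, ?_⟩
    simp only at h
    omega
  have hinj : Set.InjOn (fun x : Fin n => x.val / 3) (S : Set (Fin n)) := by
    apply Finset.injOn_of_surjOn_of_card_le (t := Finset.range k)
    · intro x _
      have := x.isLt
      simp only [Finset.coe_range, Set.mem_Iio]
      omega
    · intro j hj
      simp only [Finset.coe_range, Set.mem_Iio] at hj
      obtain ⟨x, hx, h⟩ := hblk j hj
      exact ⟨x, hx, h⟩
    · simpa using hSc
  have hinj' : ∀ x ∈ S, ∀ y ∈ S, x.val / 3 = y.val / 3 → x = y := by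
    intro x hx y hy h
    exact hinj hx hy h
  refine ⟨hblk, hinj', ?_⟩
  have key : ∀ j : ℕ, ∀ x ∈ S, x.val ≠ 3 * j + 2 := by
    intro j
    induction j with
    | zero =>
      intro x hx h
      obtain ⟨u, hu, h1⟩ := hdom' ⟨0, by omega⟩
      simp only at h1
      have h2 := congrArg Fin.val (hinj' x hx u hu (by omega))
      omega
    | succ j ih =>
      intro x hx h
      have hlt := x.isLt
      obtain ⟨u, hu, h1⟩ := hdom' ⟨3 * j + 3, by omega⟩
      simp only at h1
      have h3 := ih u hu
      have h2 := congrArg Fin.val (hinj' x hx u hu (by omega))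
      omega
  intro x hx h
  exact key (x.val / 3) x hx (by omega)

end Pool.Agent.helper91.SI
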