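import Pool.Agent.helper91.SI.Spec

/-! # STA: a connected graph without a vertex with three neighbours has a Hamiltonian path. -/

set_option autoImplicit false

namespace Pool.Agent.helper91.SI

open Pool.Agent.helper20.IG (IsIndepDom IsISet iGraph)

theorem STA_chain {V : Type} (G : SimpleGraph V) (l : List V) (h : l.IsChain G.Adj) (i : ℕ)
    (hi : i + 1 < l.length) : G.Adj l[i] l[i + 1] := by
  exact List.isChain_iff_getElem.mp h i hi

theorem STA : STA_stmt := by
  intro V _ G hG hT
  classical
  have hne : Nonempty V := hG.nonempty
  obtain ⟨v0⟩ := hne
  -- maximal list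
  let P : ℕ → Prop := fun n => ∃ l : List V, l.Nodup ∧ l.IsChain G.Adj ∧ l.length = n
  have hP1 : P 1 := ⟨[v0], by simp, by simp, rfl⟩
  have hbd : ∀ n, P n → n ≤ Fintype.card V := by
    rintro n ⟨l, hl, _, rfl⟩
    exact hl.length_le_card
  obtain ⟨l, hnd, hch, hlen⟩ : P (Nat.findGreatest P (Fintype.card V)) :=
    Nat.findGreatest_spec (hbd 1 hP1) hP1
  have hmax : ∀ l' : List V, l'.Nodup → l'.IsChain G.Adj → l'.length ≤ l.length := by
    intro l' h1 h2
    rw [hlen]
    exact Nat.le_findGreatest (hbd _ ⟨l', h1, h2, rfl⟩) ⟨l', h1, h2, rfl⟩
  have hpos : 1 ≤ l.length := by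
    have := hmax [v0] (by simp) (by simp)
    simpa using this
  have hall : ∀ x, x ∈ l := by
    by_contra hcon
    push Not at hcon
    obtain ⟨y, hy⟩ := hcon
    have hx0 : l[0]'(by omega) ∈ l := List.getElem_mem _
    obtain ⟨p⟩ := hG.preconnected (l[0]'(by omega)) y
    obtain ⟨d, _, hd1, hd2⟩ := p.exists_boundary_dart {x | x ∈ l} hx0 hy
    obtain ⟨i, hi, hix⟩ := List.getElem_of_mem hd1
    have hadj : G.Adj l[i] d.snd := by rw [hix]; exact d.adj
    have hd2' : d.snd ∉ l := hd2
    rcases Nat.eq_zero_or_pos i with h0 | h0
    · subst h0
      have h1 : (d.snd :: l).Nodup := List.nodup_cons.mpr ⟨hd2', hnd⟩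
      have h2 : (d.snd :: l).IsChain G.Adj := by
        rw [List.isChain_iff_getElem]
        intro j hj
        rcases j with _ | j
        · simpa using hadj.symm
        · simp only [List.getElem_cons_succ]
          exact List.isChain_iff_getElem.mp hch j (by simpa using hj)
      have := hmax _ h1 h2
      simp at this
    · by_cases h3 : i + 1 < l.length
      · apply hT
        refine ⟨l[i], l[i - 1]'(by omega), l[i + 1], d.snd, ?_, ?_, hadj, ?_, ?_, ?_⟩
        · have := List.isChain_iff_getElem.mp hch (i - 1) (by omega)
          have h4 : i - 1 + 1 = i := by omega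
          simp only [h4] at this
          exact this.symm
        · exact List.isChain_iff_getElem.mp hch i h3
        · intro h
          have := (hnd.getElem_inj_iff).mp h
          omega
        · intro h
          exact hd2' (h ▸ List.getElem_mem _)
        · intro h
          exact hd2' (h ▸ List.getElem_mem _)
      · have h5 : i + 1 = l.length := by omega
        have h1 : (l ++ [d.snd]).Nodup := by
          rw [List.nodup_append]
          refine ⟨hnd, by simp, ?_⟩
          intro a ha b hb
          simp at hb
          subst hb
          intro h
          exact hd2' (h ▸ ha)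
        have h2 : (l ++ [d.snd]).IsChain G.Adj := by
          rw [List.isChain_iff_getElem]
          intro j hj
          simp only [List.length_append, List.length_cons, List.length_nil] at hj
          rcases Nat.lt_or_ge (j + 1) l.length with h6 | h6
          · rw [List.getElem_append_left (by omega), List.getElem_append_left h6]
            exact List.isChain_iff_getElem.mp hch j h6
          · have h7 : j = i := by omega
            subst h7
            rw [List.getElem_append_left (by omega), List.getElem_append_right (by omega)]
            simpa using hadj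
        have := hmax _ h1 h2
        simp at this
  refine ⟨l.length, hnd.getEquivOfForallMemList l hall, ?_⟩
  rintro ⟨i, hi⟩ ⟨j, hj⟩ hij
  simp only at hij
  subst hij
  simp only [List.Nodup.getEquivOfForallMemList, Equiv.coe_fn_mk, List.get_eq_getElem]
  exact List.isChain_iff_getElem.mp hch i hj

end Pool.Agent.helper91.SI
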